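import Pool.Agent.Y138.PC.Rank

/-!
# Closures of groups of rational points which are contained in a line over a field of endomorphisms
-/

set_option autoImplicit false

open Topology Module

namespace Pool.Agent.Y138.PC

/-- a linear combination of independent elements of a number field with coefficients in a larger
field which vanishes at all embeddings is trivial -/
theorem coeff_zero {K Ω E : Type*} [Field K] [CharZero K] [Field Ω] [CharZero Ω] [Algebra K Ω]
    [IsAlgClosed Ω] [Field E] [NumberField E] {m : ℕ} (e : Fin m → E) (he : LinearIndependent ℚ e)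
    (c : Fin m → K) (h : ∀ σ : E →ₐ[ℚ] Ω, ∑ j, algebraMap K Ω (c j) * σ (e j) = 0) : c = 0 := by
  classical
  have h1 : ∀ y : E, ∑ j, c j * (algebraMap ℚ K (Algebra.trace ℚ E (y * e j))) = 0 := by
    intro y
    apply (algebraMap K Ω).injective
    rw [map_zero, map_sum]
    have h2 : ∀ j, algebraMap K Ω (c j * algebraMap ℚ K (Algebra.trace ℚ E (y * e j))) =
        ∑ σ : E →ₐ[ℚ] Ω, σ y * (algebraMap K Ω (c j) * σ (e j)) := by
      intro j
      have h3 : algebraMap K Ω (algebraMap ℚ K (Algebra.trace ℚ E (y * e j))) =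
          algebraMap ℚ Ω (Algebra.trace ℚ E (y * e j)) := by
        rw [eq_ratCast, eq_ratCast, map_ratCast]
      rw [map_mul, h3, trace_eq_sum_embeddings (E := Ω), Finset.mul_sum]
      refine Finset.sum_congr rfl fun σ _ => ?_
      rw [map_mul]
      ring
    simp_rw [h2]
    rw [Finset.sum_comm]
    refine Finset.sum_eq_zero fun σ _ => ?_
    rw [← Finset.mul_sum, h σ, mul_zero]
  funext k
  obtain ⟨g, hg⟩ := LinearMap.exists_extend ((Finsupp.lapply k : (Fin m →₀ ℚ) →ₗ[ℚ] ℚ) ∘ₗ
    (he.repr : Submodule.span ℚ (Set.range e) →ₗ[ℚ] (Fin m →₀ ℚ)))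
  have hge : ∀ j, g (e j) = if j = k then 1 else 0 := by
    intro j
    have h3 := LinearMap.congr_fun hg (⟨e j, Submodule.subset_span ⟨j, rfl⟩⟩ :
      Submodule.span ℚ (Set.range e))
    rw [LinearMap.comp_apply, Submodule.subtype_apply] at h3
    rw [h3]
    change (he.repr ⟨e j, Submodule.subset_span ⟨j, rfl⟩⟩) k = _
    rw [he.repr_eq_single j ⟨e j, Submodule.subset_span ⟨j, rfl⟩⟩ rfl, Finsupp.single_apply]
  set y := ((Algebra.traceForm ℚ E).toDual (traceForm_nondegenerate ℚ E)).symm g with hy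
  have h4 : ∀ z, Algebra.trace ℚ E (y * z) = g z := by
    intro z
    have h5 : (Algebra.traceForm ℚ E).toDual (traceForm_nondegenerate ℚ E) y z = g z := by
      rw [hy, LinearEquiv.apply_symm_apply]
    rw [LinearMap.BilinForm.toDual_def] at h5
    exact h5
  have h5 := h1 y
  simp_rw [h4, hge] at h5
  simpa using h5

section

variable {p : ℕ} [Fact p.Prime] {n : ℕ}

/-- the value at `u` of the extension to the `p`-adic numbers of a linear form `ω` -/
noncomputable def pairing (ω : (Fin n → ℚ) →ₗ[ℚ] AlgebraicClosure ℚ_[p]) (u : Fin n → ℚ_[p]) :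
    AlgebraicClosure ℚ_[p] :=
  ∑ i, algebraMap ℚ_[p] (AlgebraicClosure ℚ_[p]) (u i) * ω (Pi.single i 1)

theorem pairing_matrix (ω : (Fin n → ℚ) →ₗ[ℚ] AlgebraicClosure ℚ_[p]) (s : AlgebraicClosure ℚ_[p])
    (A : Matrix (Fin n) (Fin n) ℚ) (h : ∀ v, ω (A.mulVec v) = s * ω v) (u : Fin n → ℚ_[p]) :
    pairing ω ((A.map (algebraMap ℚ ℚ_[p])).mulVec u) = s * pairing ω u := by
  unfold pairing
  have h1 : ∀ i, ω (A.mulVec (Pi.single i 1)) =
      ∑ k, algebraMap ℚ (AlgebraicClosure ℚ_[p]) (A k i) * ω (Pi.single k 1) := by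
    intro i
    have h2 : A.mulVec (Pi.single i 1) = ∑ k, A k i • (Pi.single k 1 : Fin n → ℚ) := by
      funext k
      rw [Finset.sum_apply]
      simp [Matrix.mulVec_single, Pi.single_apply]
    rw [h2, map_sum]
    refine Finset.sum_congr rfl fun k _ => ?_
    rw [map_smul, Algebra.smul_def]
  have h2 : s * ∑ i, algebraMap ℚ_[p] (AlgebraicClosure ℚ_[p]) (u i) * ω (Pi.single i 1) =
      ∑ i, algebraMap ℚ_[p] (AlgebraicClosure ℚ_[p]) (u i) * ω (A.mulVec (Pi.single i 1)) := by
    rw [Finset.mul_sum]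
    refine Finset.sum_congr rfl fun i _ => ?_
    rw [h]
    ring
  rw [h2]
  simp_rw [h1, Finset.mul_sum]
  rw [Finset.sum_comm]
  refine Finset.sum_congr rfl fun k _ => ?_
  rw [Matrix.mulVec, dotProduct, map_sum, Finset.sum_mul]
  refine Finset.sum_congr rfl fun i _ => ?_
  have h3 : algebraMap ℚ_[p] (AlgebraicClosure ℚ_[p]) ((A.map (algebraMap ℚ ℚ_[p])) k i) =
      algebraMap ℚ (AlgebraicClosure ℚ_[p]) (A k i) := by
    rw [Matrix.map_apply, eq_ratCast, eq_ratCast, map_ratCast]
  rw [map_mul, h3]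
  ring

theorem pairing_sum (ω : (Fin n → ℚ) →ₗ[ℚ] AlgebraicClosure ℚ_[p]) {m : ℕ} (c : Fin m → ℚ_[p])
    (v : Fin m → Fin n → ℚ_[p]) : pairing ω (∑ j, c j • v j) =
      ∑ j, algebraMap ℚ_[p] (AlgebraicClosure ℚ_[p]) (c j) * pairing ω (v j) := by
  unfold pairing
  simp_rw [Finset.sum_apply, map_sum, Finset.mul_sum, Finset.sum_mul]
  rw [Finset.sum_comm]
  refine Finset.sum_congr rfl fun j _ => Finset.sum_congr rfl fun i _ => ?_
  rw [Pi.smul_apply, smul_eq_mul, map_mul]
  ring

/-- the logarithms of independent points in a line over a number field of endomorphisms are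
independent over the `p`-adic numbers -/
theorem log_independent {G : Type*} [AddCommGroup G] (log : G →+ (Fin n → ℚ_[p])) {E : Type*}
    [Field E] [NumberField E] (O : Subring E) [Module O G]
    (δ : E →ₐ[ℚ] Matrix (Fin n) (Fin n) ℚ)
    (hlog : ∀ (a : O) (x : G), log (a • x) =
      ((δ (a : E)).map (algebraMap ℚ ℚ_[p])).mulVec (log x))
    (P : G) (hP : log P ≠ 0 → ∀ ω : (Fin n → ℚ) →ₗ[ℚ] AlgebraicClosure ℚ_[p],
      (∀ u, IsAlgebraic ℚ (ω u)) → ω ≠ 0 → pairing ω (log P) ≠ 0) {m : ℕ} (v : Fin m → Fin n → ℚ_[p])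
    (hv : ∀ j, ∃ x : G, log x = v j ∧ ∃ a b : O, a ≠ 0 ∧ a • x = b • P)
    (hind : LinearIndependent ℤ v) : LinearIndependent ℚ_[p] v := by
  classical
  by_cases hn : n = 0
  · subst hn
    have hm : m = 0 := by
      by_contra hm
      have h1 := hind.ne_zero ⟨0, Nat.pos_of_ne_zero hm⟩
      exact h1 (Subsingleton.elim _ _)
    subst hm
    exact linearIndependent_empty_type
  choose x hx a b ha hab using hv
  let M : E → Matrix (Fin n) (Fin n) ℚ_[p] := fun e => (δ e).map (algebraMap ℚ ℚ_[p])
  have hMmul : ∀ e e', M (e * e') = M e * M e' := by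
    intro e e'
    change (δ (e * e')).map _ = _
    rw [map_mul, Matrix.map_mul]
  have hMadd : ∀ e e', M (e + e') = M e + M e' := by
    intro e e'
    change (δ (e + e')).map _ = _
    rw [map_add, Matrix.map_add _ (fun _ _ => map_add _ _ _)]
  have hM1 : M 1 = 1 := by
    change (δ 1).map _ = _
    rw [map_one, Matrix.map_one _ (map_zero _) (map_one _)]
  have hM0 : M 0 = 0 := by
    change (δ 0).map _ = _
    rw [map_zero, Matrix.map_zero _ (map_zero _)]
  let e : Fin m → E := fun j => (a j : E)⁻¹ * (b j : E)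
  have ha0 : ∀ j, (a j : E) ≠ 0 := fun j h => ha j (Subtype.ext h)
  -- the logarithms of the points
  have hve : ∀ j, v j = (M (e j)).mulVec (log P) := by
    intro j
    have h1 : (M (a j)).mulVec (v j) = (M (b j)).mulVec (log P) := by
      rw [← hx j, ← hlog, hab, hlog]
    have h2 : (M (a j : E)⁻¹).mulVec ((M (a j)).mulVec (v j)) = v j := by
      rw [Matrix.mulVec_mulVec, ← hMmul, inv_mul_cancel₀ (ha0 j), hM1, Matrix.one_mulVec]
    rw [← h2, h1, Matrix.mulVec_mulVec, ← hMmul]
  by_cases hP0 : log P = 0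
  · have hm : m = 0 := by
      by_contra hm
      have h1 := hind.ne_zero ⟨0, Nat.pos_of_ne_zero hm⟩
      apply h1
      rw [hve, hP0, Matrix.mulVec_zero]
    subst hm
    exact linearIndependent_empty_type
  -- integral multiples
  have hMint : ∀ (k : ℤ) (e : E), M ((k : ℤ) • e) = k • M e := by
    intro k e
    have h1 : ∀ z : E, M z = ((algebraMap ℚ ℚ_[p]).mapMatrix : Matrix (Fin n) (Fin n) ℚ →+* _)
      (δ z) := fun z => rfl
    rw [h1, h1, map_zsmul, map_zsmul]
  have hsum : ∀ k : Fin m → ℤ, M (∑ j, k j • e j) = ∑ j, k j • M (e j) := by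
    intro k
    have h1 : ∀ z : E, M z = ((algebraMap ℚ ℚ_[p]).mapMatrix : Matrix (Fin n) (Fin n) ℚ →+* _)
      (δ z) := fun z => rfl
    rw [h1, map_sum, map_sum]
    refine Finset.sum_congr rfl fun j _ => ?_
    rw [← h1, hMint]
  have heZ : LinearIndependent ℤ e := by
    rw [Fintype.linearIndependent_iff]
    intro k hk
    apply Fintype.linearIndependent_iff.1 hind k
    have h1 : ∑ j, k j • v j = (M (∑ j, k j • e j)).mulVec (log P) := by
      rw [hsum, Matrix.sum_mulVec]
      refine Finset.sum_congr rfl fun j _ => ?_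
      rw [hve j, Matrix.smul_mulVec]
    rw [h1, hk, hM0, Matrix.zero_mulVec]
  have heQ : LinearIndependent ℚ e := (LinearIndependent.iff_fractionRing ℤ ℚ).1 heZ
  rw [Fintype.linearIndependent_iff]
  intro c hc
  have hzero : c = 0 := by
    refine coeff_zero (Ω := AlgebraicClosure ℚ_[p]) e heQ c fun σ => ?_
    -- an eigenform
    obtain ⟨ω, hω0, hωalg, hωe⟩ : ∃ ω : (Fin n → ℚ) →ₗ[ℚ] AlgebraicClosure ℚ_[p], ω ≠ 0 ∧
        (∀ u, IsAlgebraic ℚ (ω u)) ∧ ∀ (z : E) (u : Fin n → ℚ),
          ω ((δ z).mulVec u) = σ z * ω u := by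
      let mod : Module E (Fin n → ℚ) :=
        { smul := fun z u => (δ z).mulVec u
          one_smul := fun u => by
            change (δ 1).mulVec u = u
            rw [map_one, Matrix.one_mulVec]
          mul_smul := fun z z' u => by
            change (δ (z * z')).mulVec u = (δ z).mulVec ((δ z').mulVec u)
            rw [map_mul, Matrix.mulVec_mulVec]
          smul_zero := fun z => Matrix.mulVec_zero _
          smul_add := fun z u u' => Matrix.mulVec_add _ _ _
          add_smul := fun z z' u => by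
            change (δ (z + z')).mulVec u = (δ z).mulVec u + (δ z').mulVec u
            rw [map_add, Matrix.add_mulVec]
          zero_smul := fun u => by
            change (δ 0).mulVec u = 0
            rw [map_zero, Matrix.zero_mulVec] }
      have hu : (fun _ => 1 : Fin n → ℚ) ≠ 0 := by
        intro h
        have h1 := congrFun h ⟨0, Nat.pos_of_ne_zero hn⟩
        norm_num at h1
      obtain ⟨f, hf⟩ := Module.Projective.exists_dual_ne_zero E hu
      have hsm : ∀ (q : ℚ) (u : Fin n → ℚ), q • u = (algebraMap ℚ E q) • u := by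
        intro q u
        change q • u = (δ (algebraMap ℚ E q)).mulVec u
        rw [AlgHom.commutes, Algebra.algebraMap_eq_smul_one, Matrix.smul_mulVec, Matrix.one_mulVec]
      let ω : (Fin n → ℚ) →ₗ[ℚ] AlgebraicClosure ℚ_[p] :=
        { toFun := fun u => σ (f u)
          map_add' := fun u u' => by rw [map_add, map_add]
          map_smul' := fun q u => by
            rw [hsm, map_smul, smul_eq_mul, map_mul, AlgHom.commutes, RingHom.id_apply,
              Algebra.smul_def] }
      refine ⟨ω, ?_, ?_, ?_⟩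
      · intro h
        apply hf
        have h1 : σ (f (fun _ => 1 : Fin n → ℚ)) = 0 := LinearMap.congr_fun h _
        exact (map_eq_zero σ).1 h1
      · intro u
        have h1 : IsAlgebraic ℚ (f u) := Algebra.IsAlgebraic.isAlgebraic _
        exact h1.algHom σ
      · intro z u
        change σ (f (z • u)) = σ z * σ (f u)
        rw [map_smul, smul_eq_mul, map_mul]
    have h1 := pairing_sum ω c v
    rw [hc] at h1
    have h2 : pairing ω (0 : Fin n → ℚ_[p]) = 0 := by
      unfold pairing
      simp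
    rw [h2] at h1
    have h3 : ∀ j, pairing ω (v j) = σ (e j) * pairing ω (log P) := by
      intro j
      rw [hve j]
      exact pairing_matrix ω (σ (e j)) (δ (e j)) (hωe (e j)) (log P)
    simp_rw [h3] at h1
    have h4 : (∑ j, algebraMap ℚ_[p] (AlgebraicClosure ℚ_[p]) (c j) * σ (e j)) *
        pairing ω (log P) = 0 := by
      rw [Finset.sum_mul, ← h1.symm]
      refine Finset.sum_congr rfl fun j _ => ?_
      ring
    exact (mul_eq_zero.1 h4).resolve_right (hP hP0 ω hωalg hω0)
  intro j
  rw [hzero]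
  rfl

/-- **Closures of groups of points in a line.** -/
theorem rank_of_line {G : Type*} [AddCommGroup G] [TopologicalSpace G] [IsTopologicalAddGroup G]
    [CompactSpace G] [T2Space G] (log : G →+ (Fin n → ℚ_[p])) (hc : Continuous log)
    (hker : Finite log.ker) {E : Type*} [Field E] [NumberField E] (O : Subring E) [Module O G]
    (δ : E →ₐ[ℚ] Matrix (Fin n) (Fin n) ℚ)
    (hlog : ∀ (a : O) (x : G), log (a • x) =
      ((δ (a : E)).map (algebraMap ℚ ℚ_[p])).mulVec (log x))
    (P : G) (hP : (∀ N : ℕ, 0 < N → N • P ≠ 0) → ∀ ω : (Fin n → ℚ) →ₗ[ℚ] AlgebraicClosure ℚ_[p],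
      (∀ u, IsAlgebraic ℚ (ω u)) → ω ≠ 0 → pairing ω (log P) ≠ 0)
    (L : AddSubgroup G) (hL : L.FG) (hline : ∀ x ∈ L, ∃ a b : O, a ≠ 0 ∧ a • x = b • P) :
    HasZpRank p L.topologicalClosure (Module.finrank ℤ L) := by
  classical
  have hfgL : AddGroup.FG L := (AddGroup.fg_iff_addSubgroup_fg L).2 hL
  let π : L →+ L.map log := log.addSubgroupMap L
  have hπ : Function.Surjective π := log.addSubgroupMap_surjective L
  have hfg : AddGroup.FG (L.map log) := AddGroup.fg_of_surjective hπ
  have hfin : Module.Finite ℤ (L.map log) := Module.Finite.iff_addGroup_fg.2 hfg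
  have htf : Module.IsTorsionFree ℤ (L.map log) := by infer_instance
  have hfree : Module.Free ℤ (L.map log) := Module.free_of_finite_type_torsion_free'
  -- the rank
  have hrank : Module.finrank ℤ L = Module.finrank ℤ (L.map log) := by
    have h1 : Function.Surjective (π.toIntLinearMap : L →ₗ[ℤ] L.map log) := hπ
    have h2 := LinearMap.lift_rank_eq_of_surjective h1
    have h3 : Module.rank ℤ (LinearMap.ker (π.toIntLinearMap : L →ₗ[ℤ] L.map log)) = 0 := by
      rw [rank_eq_zero_iff]
      rintro ⟨x, hx⟩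
      have hx' : log (x : G) = 0 := congrArg Subtype.val (LinearMap.mem_ker.1 hx)
      refine ⟨(Nat.card log.ker : ℤ), by exact_mod_cast Nat.card_pos.ne', ?_⟩
      have h4 : Nat.card log.ker • (⟨(x : G), hx'⟩ : log.ker) = 0 := card_nsmul_eq_zero'
      apply Subtype.ext
      apply Subtype.ext
      have h5 : Nat.card log.ker • (x : G) = 0 := congrArg Subtype.val h4
      rw [natCast_zsmul]
      exact h5
    rw [h3, Cardinal.lift_zero, add_zero] at h2
    have h4 := congrArg Cardinal.toNat h2
    rw [Cardinal.toNat_lift, Cardinal.toNat_lift] at h4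
    exact h4
  rw [hrank]
  let b := Module.finBasis ℤ (L.map log)
  let v : Fin (Module.finrank ℤ (L.map log)) → Fin n → ℚ_[p] := fun j => (b j : Fin n → ℚ_[p])
  have hind : LinearIndependent ℤ v := by
    have h1 := b.linearIndependent.map' ((L.map log).subtype.toIntLinearMap)
      (LinearMap.ker_eq_bot.2 Subtype.val_injective)
    exact h1
  have hvL : AddSubgroup.closure (Set.range v) = L.map log := by
    apply le_antisymm
    · rw [AddSubgroup.closure_le]
      rintro _ ⟨j, rfl⟩
      exact (b j).2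
    · intro x hx
      have h1 : x = ∑ j, (b.repr ⟨x, hx⟩ j) • v j := by
        have h2 := congrArg Subtype.val (b.sum_repr ⟨x, hx⟩)
        rw [AddSubgroup.val_finsetSum] at h2
        exact h2.symm
      rw [h1]
      exact AddSubgroup.sum_mem _ fun j _ => AddSubgroup.zsmul_mem _
        (AddSubgroup.subset_closure (Set.mem_range_self j)) _
  refine hasZpRank_closure log hc hker L hL v ?_ hvL
  refine log_independent log O δ hlog P ?_ v ?_ hind
  · intro h0
    apply hP
    intro N hN h1
    apply h0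
    have h2 : N • log P = 0 := by rw [← map_nsmul, h1, map_zero]
    rcases smul_eq_zero.1 h2 with h3 | h3
    · omega
    · exact h3
  · intro j
    obtain ⟨x, hx, hxj⟩ := (b j).2
    exact ⟨x, hxj, hline x hx⟩

end

end Pool.Agent.Y138.PC
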