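import Mathlib

/-!
# The rank over the `p`-adic integers of the closure of a finitely generated group
-/

set_option autoImplicit false

open Topology Module

namespace Pool.Agent.Y138.PC

/-- `H` has a subgroup of finite index, open in `H`, which is isomorphic, as a topological group, to
the sum of `d` copies of the `p`-adic integers. -/
def HasZpRank (p : ℕ) [Fact p.Prime] (H : Type*) [AddCommGroup H] [TopologicalSpace H] (d : ℕ) :
    Prop :=
  ∃ U : AddSubgroup H, IsOpen (U : Set H) ∧ U.FiniteIndex ∧ Nonempty (U ≃ₜ+ (Fin d → ℤ_[p]))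

/-- two injective continuous homomorphisms of compact groups with the same range -/
theorem exists_equiv {A B V : Type*} [AddCommGroup A] [TopologicalSpace A] [CompactSpace A]
    [AddCommGroup B] [TopologicalSpace B] [CompactSpace B] [AddCommGroup V] [TopologicalSpace V]
    [T2Space V] (f : A →+ V) (g : B →+ V) (hf : Continuous f) (hg : Continuous g)
    (hfi : Function.Injective f) (hgi : Function.Injective g)
    (h : f.range = g.range) : Nonempty (A ≃ₜ+ B) := by
  have hF : IsEmbedding f := (hf.isClosedEmbedding hfi).isEmbedding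
  have hG : IsEmbedding g := (hg.isClosedEmbedding hgi).isEmbedding
  have h1 : ∀ a : A, ∃ b : B, g b = f a := by
    intro a
    have h2 : f a ∈ g.range := h ▸ ⟨a, rfl⟩
    exact h2
  have h2 : ∀ b : B, ∃ a : A, f a = g b := by
    intro b
    have h2 : g b ∈ f.range := h ▸ ⟨b, rfl⟩
    exact h2
  choose u hu using h1
  choose v hv using h2
  have huv : ∀ b, u (v b) = b := fun b => hgi (by rw [hu, hv])
  have hvu : ∀ a, v (u a) = a := fun a => hfi (by rw [hv, hu])
  have hadd : ∀ a a', u (a + a') = u a + u a' := fun a a' => hgi (by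
    rw [hu, map_add, map_add, hu, hu])
  have hcu : Continuous u := by
    rw [hG.continuous_iff]
    have : g ∘ u = f := funext hu
    rw [this]
    exact hf
  have hcv : Continuous v := by
    rw [hF.continuous_iff]
    have : f ∘ v = g := funext hv
    rw [this]
    exact hg
  exact ⟨{ toFun := u, invFun := v, left_inv := hvu, right_inv := huv, map_add' := hadd,
           continuous_toFun := hcu, continuous_invFun := hcv }⟩

section

variable {p : ℕ} [Fact p.Prime] {n : ℕ}

/-- a closed subgroup is stable under the `p`-adic integers -/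
theorem smul_mem_of_isClosed (T : AddSubgroup (Fin n → ℚ_[p]))
    (hT : IsClosed (T : Set (Fin n → ℚ_[p])))
    (c : ℤ_[p]) {v : Fin n → ℚ_[p]} (hv : v ∈ T) : (c : ℚ_[p]) • v ∈ T := by
  have h1 : Continuous fun c : ℤ_[p] => (c : ℚ_[p]) • v :=
    (continuous_subtype_val).smul continuous_const
  have h2 : IsClosed {c : ℤ_[p] | (c : ℚ_[p]) • v ∈ T} := hT.preimage h1
  have h3 : Set.range (Int.cast : ℤ → ℤ_[p]) ⊆ {c : ℤ_[p] | (c : ℚ_[p]) • v ∈ T} := by
    rintro _ ⟨k, rfl⟩
    change (((k : ℤ_[p]) : ℚ_[p])) • v ∈ T
    have : ((k : ℤ_[p]) : ℚ_[p]) • v = k • v := by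
      rw [PadicInt.coe_intCast, Int.cast_smul_eq_zsmul]
    rw [this]
    exact T.zsmul_mem hv k
  have h4 := (PadicInt.denseRange_intCast (p := p)).closure_range
  have h5 := h2.closure_subset_iff.2 h3
  rw [h4] at h5
  exact h5 (Set.mem_univ c)

/-- **The rank of the closure.** `log` is a continuous homomorphism with finite kernel on a compact
group and `v j`, the logarithms of the elements `x j` of `L`, are linearly independent over the
`p`-adic numbers and generate the group of logarithms of elements of `L`. -/
theorem hasZpRank_closure {G : Type*} [AddCommGroup G] [TopologicalSpace G]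
    [IsTopologicalAddGroup G] [CompactSpace G] [T2Space G] (log : G →+ (Fin n → ℚ_[p]))
    (hlog : Continuous log) (hker : Finite log.ker) (L : AddSubgroup G) (hL : L.FG)
    {m : ℕ} (v : Fin m → (Fin n → ℚ_[p])) (hv : LinearIndependent ℚ_[p] v)
    (hvL : AddSubgroup.closure (Set.range v) = L.map log) :
    HasZpRank p L.topologicalClosure m := by
  classical
  set H := L.topologicalClosure with hH
  have hHc : IsClosed (H : Set G) := L.isClosed_topologicalClosure
  have hcomp : CompactSpace H := isCompact_iff_compactSpace.1 hHc.isCompact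
  -- the parametrization of the logarithms
  let f : (Fin m → ℤ_[p]) →+ (Fin n → ℚ_[p]) :=
    { toFun := fun c => ∑ j, (c j : ℚ_[p]) • v j
      map_zero' := by simp
      map_add' := fun c c' => by simp [add_smul, Finset.sum_add_distrib] }
  have hfc : Continuous f := by
    change Continuous fun c : Fin m → ℤ_[p] => ∑ j, (c j : ℚ_[p]) • v j
    refine continuous_finsetSum _ fun j _ => ?_
    have h0 : Continuous fun c : Fin m → ℤ_[p] => ((c j : ℤ_[p]) : ℚ_[p]) :=
      continuous_subtype_val.comp (continuous_apply j)
    exact h0.smul continuous_const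
  have hfi : Function.Injective f := by
    rw [injective_iff_map_eq_zero]
    intro c hc
    have h1 := Fintype.linearIndependent_iff.1 hv (fun j => (c j : ℚ_[p])) hc
    funext j
    exact Subtype.ext (h1 j)
  have hfcl : IsClosed (Set.range f) := (isCompact_range hfc).isClosed
  -- logarithms of elements of the closure
  have hvmem : ∀ j, v j ∈ L.map log := fun j => hvL ▸ AddSubgroup.subset_closure ⟨j, rfl⟩
  have hLf : L.map log ≤ f.range := by
    rw [← hvL, AddSubgroup.closure_le]
    rintro _ ⟨j, rfl⟩
    refine ⟨Pi.single j 1, ?_⟩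
    change ∑ i, ((Pi.single j (1 : ℤ_[p]) : Fin m → ℤ_[p]) i : ℚ_[p]) • v i = v j
    rw [Finset.sum_eq_single j]
    · simp
    · intro i _ hij
      simp [Pi.single_eq_of_ne hij]
    · simp
  have h1 : ∀ x ∈ H, log x ∈ f.range := by
    have h2 : IsClosed {x | log x ∈ f.range} := hfcl.preimage hlog
    have h3 : (L : Set G) ⊆ {x | log x ∈ f.range} := fun x hx => hLf ⟨x, hx, rfl⟩
    intro x hx
    exact (h2.closure_subset_iff.2 h3) hx
  have h2 : ∀ c, ∃ x ∈ H, log x = f c := by
    have h3 : IsClosed ((H.map log : AddSubgroup _) : Set (Fin n → ℚ_[p])) := by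
      rw [AddSubgroup.coe_map]
      exact (hHc.isCompact.image hlog).isClosed
    intro c
    have h4 : f c ∈ H.map log := by
      change ∑ j, (c j : ℚ_[p]) • v j ∈ H.map log
      refine AddSubgroup.sum_mem _ fun j _ => smul_mem_of_isClosed _ h3 _ ?_
      obtain ⟨x, hx, hxv⟩ := hvmem j
      exact ⟨x, L.le_topologicalClosure hx, hxv⟩
    exact h4
  -- multiplication by the order of the kernel
  set N := Nat.card log.ker with hN
  have hN0 : N ≠ 0 := Nat.card_pos.ne'
  have hNk : ∀ x : G, log x = 0 → N • x = 0 := by
    intro x hx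
    have h3 : Nat.card log.ker • (⟨x, hx⟩ : log.ker) = 0 := card_nsmul_eq_zero'
    exact congrArg Subtype.val h3
  let μ : H →+ H := nsmulAddMonoidHom N
  have hμc : Continuous μ := by
    change Continuous fun x : H => N • x
    exact continuous_nsmul N
  let U : AddSubgroup H := μ.range
  have hUcl : IsClosed (U : Set H) := by
    rw [AddMonoidHom.coe_range]
    exact (isCompact_range hμc).isClosed
  have hUcomp : CompactSpace U := isCompact_iff_compactSpace.1 hUcl.isCompact
  -- the index is finite
  have hfin : Finite (H ⧸ U) := by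
    let π : H →+ H ⧸ U := QuotientAddGroup.mk' U
    have hπc : Continuous π := QuotientAddGroup.continuous_mk
    have hclosed : IsClosed (U : Set H) := hUcl
    have hT2 : T1Space (H ⧸ U) := by
      have := QuotientAddGroup.instT3Space U
      infer_instance
    -- the image of `L`
    let L' : AddSubgroup H := L.addSubgroupOf H
    have hL' : (L'.map π).FG := by
      obtain ⟨S, hS⟩ := hL
      have h4 : ∀ s ∈ S, s ∈ H := fun s hs => L.le_topologicalClosure (hS ▸ AddSubgroup.subset_closure hs)
      have h3 : AddSubgroup.closure ((S.attach.image fun s => (⟨s.1, h4 s.1 s.2⟩ : H) :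
          Finset H) : Set H) = L' := by
       apply le_antisymm
       · rw [AddSubgroup.closure_le]
         intro x hx
         simp only [Finset.coe_image, Set.mem_image, Finset.mem_coe, Finset.mem_attach, true_and] at hx
         obtain ⟨s, rfl⟩ := hx
         change s.1 ∈ L
         exact hS ▸ AddSubgroup.subset_closure s.2
       · intro x hx
         have h5 : (x : G) ∈ AddSubgroup.closure (S : Set G) := by rw [hS]; exact hx
         have h6 : (AddSubgroup.closure (S : Set G)) ≤ (AddSubgroup.closure
             ((S.attach.image fun s => (⟨s.1, h4 s.1 s.2⟩ : H) : Finset H) : Set H)).map H.subtype := by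
           rw [AddSubgroup.closure_le]
           intro s hs
           refine ⟨⟨s, h4 s hs⟩, AddSubgroup.subset_closure ?_, rfl⟩
           simp only [Finset.coe_image, Set.mem_image, Finset.mem_coe, Finset.mem_attach, true_and]
           exact ⟨⟨s, hs⟩, rfl⟩
         obtain ⟨y, hy, hyx⟩ := h6 h5
         have : y = x := Subtype.ext hyx
         rwa [← this]
      rw [← h3, AddMonoidHom.map_closure]
      refine ⟨(S.attach.image fun s => (⟨s.1, h4 s.1 s.2⟩ : H)).image π, ?_⟩
      rw [Finset.coe_image]
    have hexp : ∀ x : H ⧸ U, N • x = 0 := by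
      intro x
      obtain ⟨y, rfl⟩ := QuotientAddGroup.mk'_surjective U x
      rw [← map_nsmul]
      exact (QuotientAddGroup.eq_zero_iff _).2 ⟨y, rfl⟩
    have hLfin : Finite (L'.map π) := by
      have : AddGroup.FG (L'.map π) := (AddGroup.fg_iff_addSubgroup_fg _).2 hL'
      have htor : IsAddTorsion (L'.map π) := by
        intro x
        rw [isOfFinAddOrder_iff_nsmul_eq_zero]
        exact ⟨N, Nat.pos_of_ne_zero hN0, Subtype.ext (hexp x)⟩
      exact AddCommGroup.finite_of_fg_isAddTorsion _ htor
    have hcl : IsClosed ((L'.map π : AddSubgroup (H ⧸ U)) : Set (H ⧸ U)) :=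
      (Set.toFinite _).isClosed
    have hall : ∀ x : H, π x ∈ L'.map π := by
      have h3 : IsClosed {x : H | π x ∈ L'.map π} := hcl.preimage hπc
      have h4 : (L' : Set H) ⊆ {x : H | π x ∈ L'.map π} := fun x hx => ⟨x, hx, rfl⟩
      have h5 : Dense (L' : Set H) := by
        intro x
        have h6 : IsEmbedding (Subtype.val : H → G) := IsEmbedding.subtypeVal
        rw [h6.closure_eq_preimage_closure_image]
        have h7 : Subtype.val '' (L' : Set H) = (L : Set G) := by
          ext y
          constructor
          · rintro ⟨z, hz, rfl⟩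
            exact hz
          · intro hy
            exact ⟨⟨y, L.le_topologicalClosure hy⟩, hy, rfl⟩
        rw [h7]
        exact x.2
      intro x
      have h6 := h3.closure_subset_iff.2 h4
      rw [h5.closure_eq] at h6
      exact h6 (Set.mem_univ x)
    have hsurj : Function.Surjective (Subtype.val : L'.map π → H ⧸ U) := by
      intro x
      obtain ⟨y, rfl⟩ := QuotientAddGroup.mk'_surjective U x
      exact ⟨⟨_, hall y⟩, rfl⟩
    exact Finite.of_surjective _ hsurj
  have hfi' : U.FiniteIndex := AddSubgroup.finiteIndex_of_finite_quotient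
  refine ⟨U, U.isOpen_of_isClosed_of_finiteIndex hUcl, hfi', ?_⟩
  -- the isomorphism
  let g : U →+ (Fin n → ℚ_[p]) :=
    { toFun := fun u => ((N : ℚ_[p])⁻¹) • log (u : H)
      map_zero' := by simp
      map_add' := fun u u' => by simp [smul_add] }
  have hNp : (N : ℚ_[p]) ≠ 0 := by exact_mod_cast hN0
  have hgN : ∀ x : H, ((N : ℚ_[p])⁻¹) • log ((μ x : H) : G) = log (x : G) := by
    intro x
    have h3 : ((μ x : H) : G) = N • (x : G) := rfl
    rw [h3, map_nsmul, ← Nat.cast_smul_eq_nsmul ℚ_[p], smul_smul, inv_mul_cancel₀ hNp, one_smul]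
  have hgc : Continuous g := by
    change Continuous fun u : U => ((N : ℚ_[p])⁻¹) • log ((u : H) : G)
    have h0 : Continuous fun u : U => log ((u : H) : G) :=
      hlog.comp (continuous_subtype_val.comp continuous_subtype_val)
    exact h0.const_smul ((N : ℚ_[p])⁻¹)
  have hgi : Function.Injective g := by
    rw [injective_iff_map_eq_zero]
    rintro ⟨_, x, rfl⟩ hx
    have h3 : log (x : G) = 0 := by rw [← hgN x]; exact hx
    have h4 := hNk _ h3
    apply Subtype.ext
    apply Subtype.ext
    exact h4
  refine exists_equiv g f hgc hfc hgi hfi ?_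
  ext w
  constructor
  · rintro ⟨⟨_, x, rfl⟩, rfl⟩
    have h3 := h1 x x.2
    change ((N : ℚ_[p])⁻¹) • log ((μ x : H) : G) ∈ f.range
    rw [hgN]
    exact h3
  · rintro ⟨c, rfl⟩
    obtain ⟨x, hx, hxc⟩ := h2 c
    refine ⟨⟨μ ⟨x, hx⟩, ⟨_, rfl⟩⟩, ?_⟩
    change ((N : ℚ_[p])⁻¹) • log ((μ ⟨x, hx⟩ : H) : G) = f c
    rw [hgN]
    exact hxc

end

end Pool.Agent.Y138.PC
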